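import Pool.Agent.H46.SK.Targets

/-!
# MP_2fe131_nt: module ABEL (Abel summation with antitone nonnegative weights)
-/

namespace Pool.Agent.H56.SK

open _root_.SK Finset

private theorem abel_id (n : ℕ) (a A : ℕ → ℝ) :
    a 0 * A 0 + ∑ i ∈ range (n + 1), a i * (A (i + 1) - A i) =
      a n * A (n + 1) + ∑ i ∈ range n, (a i - a (i + 1)) * A (i + 1) := by
  induction n with
  | zero => simp; ring
  | succ n ih =>
    rw [sum_range_succ, ← add_assoc, ih, sum_range_succ (fun i => (a i - a (i + 1)) * A (i + 1))]
    ring

theorem pf_ABEL : TARGET_ABEL := by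
  intro m a s B ha0 ha hanti hB hB0
  rcases m with _ | n
  · simp only [range_zero, sum_empty, abs_zero, add_zero]
    exact mul_nonneg ha0 hB0
  · have h1 := abel_id n a B
    have h2 := abel_id n a (fun j => ∑ i ∈ range j, s i)
    have h3 : ∑ i ∈ range (n + 1), a i * s i =
        a n * (∑ i ∈ range (n + 1), s i) +
          ∑ i ∈ range n, (a i - a (i + 1)) * (∑ l ∈ range (i + 1), s l) := by
      rw [← h2]
      simp only [range_zero, sum_empty, mul_zero, zero_add]
      apply sum_congr rfl
      intro i _
      rw [sum_range_succ]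
      ring
    rw [h1, h3]
    refine (abs_add_le _ _).trans (add_le_add ?_ ?_)
    · rw [abs_mul, abs_of_nonneg (ha n (Nat.lt_succ_self n))]
      exact mul_le_mul_of_nonneg_left (hB (n + 1) (by omega) le_rfl) (ha n (Nat.lt_succ_self n))
    · refine (abs_sum_le_sum_abs _ _).trans (sum_le_sum ?_)
      intro i hi
      have hi' := mem_range.1 hi
      have h4 : 0 ≤ a i - a (i + 1) := by
        have := hanti i (by omega)
        linarith
      rw [abs_mul, abs_of_nonneg h4]
      exact mul_le_mul_of_nonneg_left (hB (i + 1) (by omega) (by omega)) h4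

end Pool.Agent.H56.SK
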