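import Pool.Agent.H46.SK.Targets

/-!
# MP_2fe131_nt: module DIR (Dirichlet approximation)
-/

namespace Pool.Agent.H56.SK

open _root_.SK Finset

theorem pf_DIR : TARGET_DIR := by
  intro k hk θ Q hQ
  have hkp : 0 < k := hk.out.pos
  have hkR : (0 : ℝ) < k := by exact_mod_cast hkp
  obtain ⟨r, hr, hrQ⟩ := Real.exists_rat_abs_sub_le_and_den_le
    ((θ.val : ℝ) / k) (n := Q) (by omega)
  refine ⟨r.den, r.num, r.pos, hrQ, ?_, ?_⟩
  · have := r.reduced
    rw [Int.gcd_eq_natAbs]
    simpa [Nat.Coprime] using this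
  · have hden : (0 : ℝ) < r.den := by exact_mod_cast r.pos
    have h1 : (r : ℝ) = (r.num : ℝ) / r.den := by
      exact_mod_cast (Rat.num_div_den r).symm
    rw [h1] at hr
    have h2 : (θ.val : ℝ) / k - (r.num : ℝ) / r.den =
        ((r.den : ℝ) * θ.val - r.num * k) / (k * r.den) := by
      field_simp
    rw [h2, abs_div, abs_of_pos (mul_pos hkR hden), div_le_div_iff₀ (mul_pos hkR hden)
      (by positivity)] at hr
    have h3 : |(r.den : ℝ) * θ.val - r.num * k| * (Q + 1) ≤ k := by
      have h4 : |(r.den : ℝ) * θ.val - r.num * k| * (Q + 1) * r.den ≤ k * r.den := by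
        nlinarith [hr]
      exact le_of_mul_le_mul_right h4 hden
    exact_mod_cast h3

end Pool.Agent.H56.SK
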